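import Pool.Agent.Y644.QW.Final
set_option autoImplicit false

/-!
# A version of the simplex method which is polynomial on block structured linear programs

Linear programs `max c x`, `A x ≤ b`, `x ≥ 0` with `n` variables and `m` constraints besides
`x ≥ 0`. We give a deterministic version of the simplex method, that is an algorithm which follows
improving edges from the given vertex to an optimal vertex, or to a vertex with an unbounded
improving edge, on every linear program (degenerate and unbounded ones included), such that

* its total running time in the bit model is quasi-polynomial on all linear programs;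
* for all constants `D` and `C` it is polynomial on all linear programs with a nested block
  structure of depth `D`, except for at most `C log L` rows and columns, or except for `e` rows
  with `log² e ≤ C log L`. The coefficients are arbitrary.

A nested block structure of depth `D` on the columns `X` and the rows `R`: after deletion of at
most one row, the matrix decomposes into blocks without common rows and columns, and each of the
blocks has a nested block structure of depth `D - 1`; a structure of depth `0` has no nonzero
entries. So in terms of graphs, if we join two rows of `R` whenever they have a common nonzero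
column in `X`, then this graph has treedepth at most `D` (up to zero rows). For example,
`D = r + s` if there are `r` linking rows, and every block has `s` further rows (and any number of
columns).

The algorithm. An auxiliary polynomial-time routine decides feasibility of systems of linear
inequalities. A call with counter `g` on a face from the vertex `v`: as long as there is a facet
containing the current vertex and an optimal vertex, go to this facet. If there is none, compute an
optimal vertex `w`, and let `S` be the rows which are not tight at `w`; follow the path which the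
algorithm makes with counter `g - 1` in the relaxation `S`, until it reaches a row which is not in
`S`; there we have a facet which contains the current vertex and `w`. With counter `0` we use the
quasi-polynomial algorithm, based on the recursion of Kalai and Kleitman. All counters are tried in
parallel. The main point of the proof: after `G` nested relaxations, `G = G(D)`, the dimension of
the current face is at most a constant times (1 + the number of exceptional rows) plus the number
of exceptional columns. Indeed every relaxation removes from each block, on which the current face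
is not a point, a row which is not constant, but the number of these rows is bounded by a constant
times the dimension.
-/

namespace Pool.Agent.Results.MP_4d246d_lc.NestedBlocks

open Pool.Agent.NPC

/-- the polyhedron `A x ≤ b`, `x ≥ 0` -/
def polyhedron {m n : ℕ} (A : Fin m → Fin n → ℚ) (b : Fin m → ℚ) : Set (Fin n → ℝ) :=
  {x | (∀ i, ∑ j, (A i j : ℝ) * x j ≤ b i) ∧ ∀ j, 0 ≤ x j}

/-- the objective function `c x` -/
noncomputable def obj {n : ℕ} (c : Fin n → ℚ) (x : Fin n → ℝ) : ℝ := ∑ j, (c j : ℝ) * x j

/-- rational vectors as real vectors -/
noncomputable def re {n : ℕ} (x : Fin n → ℚ) : Fin n → ℝ := fun j => (x j : ℝ)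

/-- `x` and `y` are joined by an edge of `P` on which the objective function increases -/
def ImprovingEdge {n : ℕ} (P : Set (Fin n → ℝ)) (c x y : Fin n → ℚ) : Prop :=
  IsExposed ℝ P (segment ℝ (re x) (re y)) ∧ obj c (re x) < obj c (re y)

/-- `P` has an unbounded edge at `x`, in the direction `d`, on which the objective function
increases -/
def UnboundedEdge {n : ℕ} (P : Set (Fin n → ℝ)) (c x d : Fin n → ℚ) : Prop :=
  IsExposed ℝ P {z | ∃ t : ℝ, 0 ≤ t ∧ z = re x + t • re d} ∧ 0 < obj c (re d)

/-- The vertices `x 0, …, x N` of `P` are a path of improving edges starting at `v`. It ends at a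
vertex maximising the objective function (`d = none`), or at a vertex with an unbounded improving
edge in the direction `e` (`d = some e`). -/
def IsSimplexPath {n : ℕ} (P : Set (Fin n → ℝ)) (c v : Fin n → ℚ) (N : ℕ)
    (x : ℕ → Fin n → ℚ) (d : Option (Fin n → ℚ)) : Prop :=
  x 0 = v ∧ (∀ k ≤ N, re (x k) ∈ Set.extremePoints ℝ P) ∧
    (∀ k < N, ImprovingEdge P c (x k) (x (k + 1))) ∧
    (d = none → ∀ y ∈ P, obj c y ≤ obj c (re (x N))) ∧
    ∀ e, d = some e → UnboundedEdge P c (x N) e

/-- the linear program `A`, `b`, `c` as a bit string -/
def program {m n : ℕ} (A : Fin m → Fin n → ℚ) (b : Fin m → ℚ) (c : Fin n → ℚ) : List Bool :=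
  bits (List.ofFn fun i => List.ofFn (A i), List.ofFn b, List.ofFn c)

/-- the input `A`, `b`, `c` and the start vertex `v` as a bit string -/
def input {m n : ℕ} (A : Fin m → Fin n → ℚ) (b : Fin m → ℚ) (c v : Fin n → ℚ) : List Bool :=
  bits (List.ofFn fun i => List.ofFn (A i), List.ofFn b, List.ofFn c, List.ofFn v)

/-- the output `x 0, …, x N` and `d` as a bit string -/
def output {n : ℕ} (N : ℕ) (x : ℕ → Fin n → ℚ) (d : Option (Fin n → ℚ)) : List Bool :=
  bits ((List.range (N + 1)).map (fun k => List.ofFn (x k)), d.map List.ofFn)

/-- A function on bit strings is computable in quasi-polynomial time: some Turing machine (in the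
sense of Mathlib) computes it, with time at most `2 ^ (C (log₂ L + 1) ^ 2)` on inputs of length
`L`. -/
def QuasiPolyTime (f : List Bool → List Bool) : Prop :=
  ∃ (M : Turing.TM2ComputableInTime (id : List Bool → List Bool) (id : List Bool → List Bool) f)
    (C : ℕ), ∀ L, M.time L ≤ 2 ^ (C * (Nat.log 2 L + 1) ^ 2)

/-- The columns `X` and the rows `R` of the matrix `A` form a nested block structure of depth `D`:
`R` has no nonzero entries in `X`; or there are two such structures without common columns, and
the rows of each of them have no nonzero entries in the columns of the other; or one row is added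
to a structure of depth `D - 1`. -/
inductive Nested {m n : ℕ} (A : Fin m → Fin n → ℚ) : ℕ → Finset (Fin n) → Finset (Fin m) → Prop
  | nil (D : ℕ) (X : Finset (Fin n)) (R : Finset (Fin m)) (h : ∀ i ∈ R, ∀ j ∈ X, A i j = 0) :
      Nested A D X R
  | union (D : ℕ) (X₁ X₂ : Finset (Fin n)) (R₁ R₂ : Finset (Fin m)) (hX : Disjoint X₁ X₂)
      (h₁ : ∀ i ∈ R₁, ∀ j ∈ X₂, A i j = 0) (h₂ : ∀ i ∈ R₂, ∀ j ∈ X₁, A i j = 0)
      (c₁ : Nested A D X₁ R₁) (c₂ : Nested A D X₂ R₂) : Nested A D (X₁ ∪ X₂) (R₁ ∪ R₂)
  | add (D : ℕ) (X : Finset (Fin n)) (R : Finset (Fin m)) (i : Fin m) (c : Nested A D X R) :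
      Nested A (D + 1) X (insert i R)

/-- The matrix `A` has a nested block structure of depth `D` except for at most `C log₂ L` rows
and columns, or except for `e` rows with `(log₂ e) ^ 2 ≤ C log₂ L`. -/
def BlockStructured {m n : ℕ} (A : Fin m → Fin n → ℚ) (D C L : ℕ) : Prop :=
  ∃ (X : Finset (Fin n)) (R : Finset (Fin m)), Nested A D X R ∧
    ((m - R.card) + (n - X.card) ≤ C * Nat.log 2 L ∨
      (X = Finset.univ ∧ Nat.log 2 (m - R.card) ^ 2 ≤ C * Nat.log 2 L))

theorem nested_iff {m n : ℕ} {A : Fin m → Fin n → ℚ} {D : ℕ} {X : Finset (Fin n)}
    {R : Finset (Fin m)} (h : Nested A D X R) : Y644.QW.Nested A D X R := by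
  induction h with
  | nil D X R h => exact .nil D X R h
  | union D X₁ X₂ R₁ R₂ hX h₁ h₂ _ _ c₁ c₂ => exact .union D X₁ X₂ R₁ R₂ hX h₁ h₂ c₁ c₂
  | add D X R i _ c => exact .add D X R i c

/-- **A version of the simplex method which runs in quasi-polynomial time on all linear programs,
and in polynomial time on block structured ones.** -/
theorem result : ∃ (f : List Bool → List Bool) (p : ℕ → Polynomial ℕ) (κ : ℕ → ℕ),
    QuasiPolyTime f ∧
    (∀ (m n : ℕ) (A : Fin m → Fin n → ℚ) (b : Fin m → ℚ) (c v : Fin n → ℚ),
      re v ∈ Set.extremePoints ℝ (polyhedron A b) →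
      ∃ (N : ℕ) (x : ℕ → Fin n → ℚ) (d : Option (Fin n → ℚ)),
        f (input A b c v) = output N x d ∧ IsSimplexPath (polyhedron A b) c v N x d ∧
        ∀ (D : ℕ) (X : Finset (Fin n)) (R : Finset (Fin m)), Nested A D X R →
          N ≤ (p D).eval (m + n) * 2 ^ (κ D * ((m - R.card) + (n - X.card))) ∧
          (X = Finset.univ →
            N ≤ (p D).eval n * 2 ^ (κ D * (Nat.log 2 (m - R.card) + 1) ^ 2))) ∧
    (∀ D C : ℕ, ∃ g : List Bool → List Bool, PolyTime g ∧
      ∀ (m n : ℕ) (A : Fin m → Fin n → ℚ) (b : Fin m → ℚ) (c v : Fin n → ℚ),
        re v ∈ Set.extremePoints ℝ (polyhedron A b) →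
        BlockStructured A D C (input A b c v).length → g (input A b c v) = f (input A b c v)) ∧
    ∃ q : Polynomial ℕ, ∀ (m n : ℕ) (A : Fin m → Fin n → ℚ) (b : Fin m → ℚ) (c v : Fin n → ℚ),
      re v ∈ Set.extremePoints ℝ (polyhedron A b) →
      (input A b c v).length ≤ q.eval (program A b c).length := by
  refine ⟨fun x => bits (Y644.QW.lpBitsW x ((16 * x.length + 16) ^ sz (16 * x.length + 16))),
    Y644.QW.pP, Y644.QW.kP, NPC.Y644.quasi_lpW, fun m n A b c v hv => ?_,
    fun D C => ⟨_, NPC.Y644.poly_lpK D C, fun m n A b c v hv h => ?_⟩,
    NPC.Y644.exists_vertex_bound⟩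
  · have hL : m + n < (input A b c v).length := Y644.QS.le_sz_inp
    have hlen : (input A b c v).length = sz (Y644.QS.inp A b c v) := bits_length _
    obtain ⟨N, x, d, h1, h2⟩ := Y644.QW.lpW_len (c := c) hv (sz (Y644.QS.inp A b c v))
    refine ⟨N, x, d, ?_, h2, fun D X R hn => Y644.QW.piv_nested (c := c) hv (hlen ▸ hL)
      (nested_iff hn) fun K hK => (h1 K hK).2⟩
    change bits (Y644.QW.lpBitsW (bits (Y644.QS.inp A b c v)) _) = _
    rw [Y644.QW.lpBitsW_inp, (h1 _ (Y644.QW.term_general hv (Y644.QW.bnd_main hL))).1]
    rfl
  · have hL : m + n < (input A b c v).length := Y644.QS.le_sz_inp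
    obtain ⟨X, R, hn, h⟩ := h
    have hlen : (input A b c v).length = sz (Y644.QS.inp A b c v) := bits_length _
    obtain ⟨N, x, d, h1, h2⟩ := Y644.QW.lpW_len (c := c) hv (sz (Y644.QS.inp A b c v))
    change bits (Y644.QW.lpBitsW (bits (Y644.QS.inp A b c v)) _) =
      bits (Y644.QW.lpBitsW (bits (Y644.QS.inp A b c v)) _)
    rw [Y644.QW.lpBitsW_inp, Y644.QW.lpBitsW_inp,
      (h1 _ (Y644.QW.term_general hv (Y644.QW.bnd_main hL))).1, (h1 _ ?_).1]
    have h3 := Y644.QW.term_nested (c := c) hv hL (nested_iff hn) h
    rw [hlen] at h3
    exact h3

end Pool.Agent.Results.MP_4d246d_lc.NestedBlocks
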