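import Pool.Agent.Y644.QV.PolyU
set_option autoImplicit false

/-!
# A version of the simplex method which is polynomial on linear programs with nested blocks
# and matrices of rank one

Linear programs `max c x`, `A x ≤ b`, `x ≥ 0` with `n` variables and `m` constraints besides
`x ≥ 0`. We give a deterministic version of the simplex method, that is an algorithm which follows
improving edges from the given vertex to an optimal vertex, or to a vertex with an unbounded
improving edge, on every linear program (degenerate and unbounded ones included), such that

* its total running time in the bit model is quasi-polynomial on all linear programs;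
* for every constant `D` it is polynomial on all linear programs whose matrix `A` has a nested
  structure of depth `D`, and there the number of pivots is at most a polynomial in `m + n`,
  whatever the coefficients of `A`, `b` and `c` are.

Nested structures: a matrix has depth `0` if it is zero; it has depth at most `D + 1` if after
subtraction of a matrix of rank at most one it decomposes into blocks (without common rows and
columns) of depth at most `D`. The matrix of rank one may have real entries. The structure is not
given to the algorithm. For example, the depth is bounded if `A` has bounded rank; if after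
deletion of a bounded number of rows and columns, `A` decomposes into blocks of bounded rank, for
example into blocks with a bounded number of rows, or with a bounded number of columns (and this
may be iterated a bounded number of times); in particular, if the primal, the dual or the incidence
graph of `A` has bounded treedepth.

The algorithm. We use the shadow vertex rule. The auxiliary objective function `c'` is a positive
combination of the constraints which are tight at the start vertex (so the start vertex is its only
maximum), with coefficients `1, M, M², …` for a suitable number `M`; then the optimal vertices for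
the objective functions `c' + θ c`, `θ ≥ 0`, form a path of improving edges. The next edge of the
path is found by linear programming (with an auxiliary polynomial-time routine). In parallel we run
algorithms for which quasi-polynomial bounds hold on all linear programs, and we use the path of
the algorithm which finishes first.

The main point of the proof is a bound for the number of vertices of the shadow. Optimal solutions
of the primal and the dual linear program can be chosen as functions of linear parameters in the
objective function and in the right-hand sides, in such a way that they are linear on the cells of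
an arrangement of polynomially many hyperplanes. For blocks this is obvious, and a matrix of rank
one is treated by adding one parameter to the objective function and one parameter to the
right-hand side, for which one obtains a piecewise linear equation with polynomially many pieces.
-/

namespace Pool.Agent.Results.MP_4d246d_lc.NestedRankOne

open Pool.Agent.NPC

/-- the polyhedron `A x ≤ b`, `x ≥ 0` -/
def polyhedron {m n : ℕ} (A : Fin m → Fin n → ℚ) (b : Fin m → ℚ) : Set (Fin n → ℝ) :=
  {x | (∀ i, ∑ j, (A i j : ℝ) * x j ≤ b i) ∧ ∀ j, 0 ≤ x j}

/-- the objective function `c x` -/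
noncomputable def obj {n : ℕ} (c : Fin n → ℚ) (x : Fin n → ℝ) : ℝ := ∑ j, (c j : ℝ) * x j

/-- rational vectors as real vectors -/
noncomputable def re {n : ℕ} (x : Fin n → ℚ) : Fin n → ℝ := fun j => (x j : ℝ)

/-- `x` and `y` are joined by an edge of `P` on which the objective function increases -/
def ImprovingEdge {n : ℕ} (P : Set (Fin n → ℝ)) (c x y : Fin n → ℚ) : Prop :=
  IsExposed ℝ P (segment ℝ (re x) (re y)) ∧ obj c (re x) < obj c (re y)

/-- `P` has an unbounded edge at `x`, in the direction `d`, on which the objective function
increases -/
def UnboundedEdge {n : ℕ} (P : Set (Fin n → ℝ)) (c x d : Fin n → ℚ) : Prop :=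
  IsExposed ℝ P {z | ∃ t : ℝ, 0 ≤ t ∧ z = re x + t • re d} ∧ 0 < obj c (re d)

/-- The vertices `x 0, …, x N` of `P` are a path of improving edges starting at `v`. It ends at a
vertex maximising the objective function (`d = none`), or at a vertex with an unbounded improving
edge in the direction `e` (`d = some e`). -/
def IsSimplexPath {n : ℕ} (P : Set (Fin n → ℝ)) (c v : Fin n → ℚ) (N : ℕ)
    (x : ℕ → Fin n → ℚ) (d : Option (Fin n → ℚ)) : Prop :=
  x 0 = v ∧ (∀ k ≤ N, re (x k) ∈ Set.extremePoints ℝ P) ∧
    (∀ k < N, ImprovingEdge P c (x k) (x (k + 1))) ∧
    (d = none → ∀ y ∈ P, obj c y ≤ obj c (re (x N))) ∧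
    ∀ e, d = some e → UnboundedEdge P c (x N) e

/-- the linear program `A`, `b`, `c` as a bit string -/
def program {m n : ℕ} (A : Fin m → Fin n → ℚ) (b : Fin m → ℚ) (c : Fin n → ℚ) : List Bool :=
  bits (List.ofFn fun i => List.ofFn (A i), List.ofFn b, List.ofFn c)

/-- the input `A`, `b`, `c` and the start vertex `v` as a bit string -/
def input {m n : ℕ} (A : Fin m → Fin n → ℚ) (b : Fin m → ℚ) (c v : Fin n → ℚ) : List Bool :=
  bits (List.ofFn fun i => List.ofFn (A i), List.ofFn b, List.ofFn c, List.ofFn v)

/-- the output `x 0, …, x N` and `d` as a bit string -/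
def output {n : ℕ} (N : ℕ) (x : ℕ → Fin n → ℚ) (d : Option (Fin n → ℚ)) : List Bool :=
  bits ((List.range (N + 1)).map (fun k => List.ofFn (x k)), d.map List.ofFn)

/-- A function on bit strings is computable in quasi-polynomial time: some Turing machine (in the
sense of Mathlib) computes it, with time at most `2 ^ (C (log₂ L + 1) ^ 2)` on inputs of length
`L`. -/
def QuasiPolyTime (f : List Bool → List Bool) : Prop :=
  ∃ (M : Turing.TM2ComputableInTime (id : List Bool → List Bool) (id : List Bool → List Bool) f)
    (C : ℕ), ∀ L, M.time L ≤ 2 ^ (C * (Nat.log 2 L + 1) ^ 2)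

/-- The submatrix of `A` with the rows `R` and the columns `X` has a nested structure of depth
`D`. Depth `0`: it is zero. Depth `D + 1`: for some vectors `u` and `w` and some labels of the rows
and the columns, the entries of `A - u wᵀ` are zero whenever the row and the column have different
labels, and for each label, the submatrix of `A - u wᵀ` with the rows and columns of this label has
a nested structure of depth `D`. -/
def Nested {m n : ℕ} : ℕ → (Fin m → Fin n → ℝ) → Finset (Fin m) → Finset (Fin n) → Prop
  | 0, A, R, X => ∀ i ∈ R, ∀ j ∈ X, A i j = 0
  | D + 1, A, R, X => ∃ (u : Fin m → ℝ) (w : Fin n → ℝ) (p : Fin m → ℕ) (q : Fin n → ℕ),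
      (∀ i ∈ R, ∀ j ∈ X, p i ≠ q j → A i j - u i * w j = 0) ∧
      ∀ k, Nested D (fun i j => A i j - u i * w j) (R.filter fun i => p i = k)
        (X.filter fun j => q j = k)

/-- the matrix `A` has a nested structure of depth `D` -/
def NestedMatrix {m n : ℕ} (D : ℕ) (A : Fin m → Fin n → ℚ) : Prop :=
  Nested D (fun i j => (A i j : ℝ)) Finset.univ Finset.univ

theorem nested_iff {m n : ℕ} : ∀ {D : ℕ} {A : Fin m → Fin n → ℝ} {R : Finset (Fin m)}
    {X : Finset (Fin n)}, Nested D A R X → Y644.PL.Nested D A R X
  | 0, _, _, _, h => h
  | _ + 1, _, _, _, ⟨u, w, p, q, h1, h2⟩ =>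
    ⟨u, w, p, q, fun i hi j hj hk => sub_eq_zero.1 (h1 i hi j hj hk), fun k => nested_iff (h2 k)⟩

/-- **A version of the simplex method which runs in quasi-polynomial time on all linear programs,
and in polynomial time, with a strongly polynomial number of pivots, on linear programs with a
nested structure of bounded depth.** -/
theorem result : ∃ (f : List Bool → List Bool) (κ : ℕ → ℕ),
    QuasiPolyTime f ∧
    (∀ (m n : ℕ) (A : Fin m → Fin n → ℚ) (b : Fin m → ℚ) (c v : Fin n → ℚ),
      re v ∈ Set.extremePoints ℝ (polyhedron A b) →
      ∃ (N : ℕ) (x : ℕ → Fin n → ℚ) (d : Option (Fin n → ℚ)),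
        f (input A b c v) = output N x d ∧ IsSimplexPath (polyhedron A b) c v N x d ∧
        ∀ D, NestedMatrix D A → N ≤ (m + n + 2) ^ κ D) ∧
    (∀ D : ℕ, ∃ g : List Bool → List Bool, PolyTime g ∧
      ∀ (m n : ℕ) (A : Fin m → Fin n → ℚ) (b : Fin m → ℚ) (c v : Fin n → ℚ),
        re v ∈ Set.extremePoints ℝ (polyhedron A b) →
        NestedMatrix D A → g (input A b c v) = f (input A b c v)) ∧
    ∃ q : Polynomial ℕ, ∀ (m n : ℕ) (A : Fin m → Fin n → ℚ) (b : Fin m → ℚ) (c v : Fin n → ℚ),
      re v ∈ Set.extremePoints ℝ (polyhedron A b) →
      (input A b c v).length ≤ q.eval (program A b c).length := by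
  refine ⟨fun x => bits (Y644.QV.lpBitsU x ((16 * x.length + 16) ^ sz (16 * x.length + 16))),
    fun D => (Y644.PL.KK D 2 + 2) * 2, NPC.Y644.quasi_lpU, fun m n A b c v hv => ?_,
    fun D => ⟨_, NPC.Y644.poly_lpUR (Y644.PL.KK D 2), fun m n A b c v hv h => ?_⟩,
    NPC.Y644.exists_vertex_bound⟩
  · have hL : m + n < (input A b c v).length := Y644.QS.le_sz_inp
    obtain ⟨N, x, d, h1, h2⟩ := Y644.QV.lpU_spec (c := c) hv (sz (Y644.QS.inp A b c v))
    refine ⟨N, x, d, ?_, h2, fun D hn => ?_⟩
    · change bits (Y644.QV.lpBitsU (bits (Y644.QS.inp A b c v)) _) = _
      rw [Y644.QV.lpBitsU_inp, (h1 _ (Y644.QV.done_general hv (Y644.QW.bnd_main hL))).1]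
      rfl
    · refine (h1 _ (Y644.QV.done_ranks (c := c) hv (nested_iff hn))).2.trans ?_
      rw [pow_mul]
      exact Nat.pow_le_pow_left (Y644.PL.pow_add_two (by omega)) 2
  · have hL : m + n < (input A b c v).length := Y644.QS.le_sz_inp
    have hlen : (input A b c v).length = sz (Y644.QS.inp A b c v) := bits_length _
    obtain ⟨N, x, d, h1, h2⟩ := Y644.QV.lpU_spec (c := c) hv (sz (Y644.QS.inp A b c v))
    change bits (Y644.QV.lpBitsU (bits (Y644.QS.inp A b c v)) _) =
      bits (Y644.QV.lpBitsU (bits (Y644.QS.inp A b c v)) _)
    rw [Y644.QV.lpBitsU_inp, Y644.QV.lpBitsU_inp,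
      (h1 _ (Y644.QV.done_general hv (Y644.QW.bnd_main hL))).1, (h1 _ ?_).1]
    obtain ⟨k, h3, h4⟩ := Y644.QV.done_ranks (c := c) hv (nested_iff h)
      (L := sz (Y644.QS.inp A b c v))
    refine ⟨k, h3.trans ?_, h4⟩
    exact Nat.pow_le_pow_left (Nat.add_le_add_right (Nat.pow_le_pow_left
      (Nat.add_le_add_right hL.le 2) _) 2) 2

end Pool.Agent.Results.MP_4d246d_lc.NestedRankOne
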