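import Pool.Agent.Y644.QS.Final
set_option autoImplicit false

/-!
# A version of the simplex method which runs in quasi-polynomial time

Linear programs `max c x`, `A x ≤ b`, `x ≥ 0` with `n` variables and `m` constraints besides
`x ≥ 0`. We give a deterministic algorithm which follows improving edges from the given vertex to
an optimal vertex, or to a vertex with an unbounded improving edge, on every such linear program
(degenerate and unbounded ones included), such that

* its total running time in the bit model is quasi-polynomial, `2 ^ O(log² L)`;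
* its number of steps is at most `pivots m n`, which does not depend on the numbers;
* its total running time is polynomial in `L` on the linear programs with `n = O(log L)`
  variables, and on those with `m` constraints, `log² m = O(log L)` (for example
  `m ≤ polylog L`), and any number of variables.

The algorithm. An auxiliary polynomial-time routine decides feasibility of systems of linear
inequalities; with it the facets can be ordered by their tops, that is by the maximum of the
objective function on the facet, in polynomial time, by binary search. To solve a linear program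
with `k` inequalities in dimension `d`, from the vertex `v`: let `S` be the upper half of the facets
in this order. If `v` is on no facet of `S`, follow the path which the algorithm makes in the
polyhedron defined by the inequalities not in `S` until it reaches a facet in `S` (or the optimum).
On a facet `F` of `S`, use the algorithm recursively to get to its top `w`, in dimension `d - 1`.
If `w` is not optimal, take an improving edge; from now on we are above all facets that are not
above `F`, so that we can drop these inequalities, which are at least half of all.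
So `T(d, k) ≤ 2 T(d, k / 2) + T(d - 1, k - 1) + O(1)`. Facets containing the current vertex which
have the same top as the polyhedron are preferred: such a facet exists as long as `k < 2 d - 1`,
which reduces the case of many variables and few constraints to `k ≤ 2 (k - d) + 1`.
-/

namespace Pool.Agent.Results.MP_4d246d_lc.QuasiPolynomial

open Pool.Agent.NPC

/-- the polyhedron `A x ≤ b`, `x ≥ 0` -/
def polyhedron {m n : ℕ} (A : Fin m → Fin n → ℚ) (b : Fin m → ℚ) : Set (Fin n → ℝ) :=
  {x | (∀ i, ∑ j, (A i j : ℝ) * x j ≤ b i) ∧ ∀ j, 0 ≤ x j}

/-- the objective function `c x` -/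
noncomputable def obj {n : ℕ} (c : Fin n → ℚ) (x : Fin n → ℝ) : ℝ := ∑ j, (c j : ℝ) * x j

/-- rational vectors as real vectors -/
noncomputable def re {n : ℕ} (x : Fin n → ℚ) : Fin n → ℝ := fun j => (x j : ℝ)

/-- `x` and `y` are joined by an edge of `P` on which the objective function increases -/
def ImprovingEdge {n : ℕ} (P : Set (Fin n → ℝ)) (c x y : Fin n → ℚ) : Prop :=
  IsExposed ℝ P (segment ℝ (re x) (re y)) ∧ obj c (re x) < obj c (re y)

/-- `P` has an unbounded edge at `x`, in the direction `d`, on which the objective function
increases -/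
def UnboundedEdge {n : ℕ} (P : Set (Fin n → ℝ)) (c x d : Fin n → ℚ) : Prop :=
  IsExposed ℝ P {z | ∃ t : ℝ, 0 ≤ t ∧ z = re x + t • re d} ∧ 0 < obj c (re d)

/-- The vertices `x 0, …, x N` of `P` are a path of improving edges starting at `v`. It ends at a
vertex maximising the objective function (`d = none`), or at a vertex with an unbounded improving
edge in the direction `e` (`d = some e`). -/
def IsSimplexPath {n : ℕ} (P : Set (Fin n → ℝ)) (c v : Fin n → ℚ) (N : ℕ)
    (x : ℕ → Fin n → ℚ) (d : Option (Fin n → ℚ)) : Prop :=
  x 0 = v ∧ (∀ k ≤ N, re (x k) ∈ Set.extremePoints ℝ P) ∧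
    (∀ k < N, ImprovingEdge P c (x k) (x (k + 1))) ∧
    (d = none → ∀ y ∈ P, obj c y ≤ obj c (re (x N))) ∧
    ∀ e, d = some e → UnboundedEdge P c (x N) e

/-- the linear program `A`, `b`, `c` as a bit string -/
def program {m n : ℕ} (A : Fin m → Fin n → ℚ) (b : Fin m → ℚ) (c : Fin n → ℚ) : List Bool :=
  bits (List.ofFn fun i => List.ofFn (A i), List.ofFn b, List.ofFn c)

/-- the input `A`, `b`, `c` and the start vertex `v` as a bit string -/
def input {m n : ℕ} (A : Fin m → Fin n → ℚ) (b : Fin m → ℚ) (c v : Fin n → ℚ) : List Bool :=
  bits (List.ofFn fun i => List.ofFn (A i), List.ofFn b, List.ofFn c, List.ofFn v)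

/-- the output `x 0, …, x N` and `d` as a bit string -/
def output {n : ℕ} (N : ℕ) (x : ℕ → Fin n → ℚ) (d : Option (Fin n → ℚ)) : List Bool :=
  bits ((List.range (N + 1)).map (fun k => List.ofFn (x k)), d.map List.ofFn)

/-- A function on bit strings is computable in quasi-polynomial time: some Turing machine (in the
sense of Mathlib) computes it, with time at most `2 ^ (C (log₂ L + 1) ^ 2)` on inputs of length
`L`. -/
def QuasiPolyTime (f : List Bool → List Bool) : Prop :=
  ∃ (M : Turing.TM2ComputableInTime (id : List Bool → List Bool) (id : List Bool → List Bool) f)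
    (C : ℕ), ∀ L, M.time L ≤ 2 ^ (C * (Nat.log 2 L + 1) ^ 2)

/-- the bound for the number of steps; `Nat.size k` is `⌊log₂ k⌋ + 1` -/
def pivots (m n : ℕ) : ℕ :=
  min ((8 * (m + n) + 1) * Nat.choose (n + Nat.size (m + n)) n)
    (2 * (m + n) + (16 * m + 9) * Nat.choose (m + 1 + Nat.size (2 * m + 1)) (m + 1))

/-- **A version of the simplex method which runs in quasi-polynomial time, and in polynomial time
for `O(log L)` variables or `2 ^ O(√log L)` constraints.** -/
theorem result : ∃ f : List Bool → List Bool, QuasiPolyTime f ∧
    (∀ (m n : ℕ) (A : Fin m → Fin n → ℚ) (b : Fin m → ℚ) (c v : Fin n → ℚ),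
      re v ∈ Set.extremePoints ℝ (polyhedron A b) →
      ∃ (N : ℕ) (x : ℕ → Fin n → ℚ) (d : Option (Fin n → ℚ)),
        f (input A b c v) = output N x d ∧ IsSimplexPath (polyhedron A b) c v N x d ∧
          N ≤ pivots m n) ∧
    (∀ C : ℕ, ∃ g : List Bool → List Bool, PolyTime g ∧
      ∀ (m n : ℕ) (A : Fin m → Fin n → ℚ) (b : Fin m → ℚ) (c v : Fin n → ℚ),
        re v ∈ Set.extremePoints ℝ (polyhedron A b) →
        (n ≤ C * Nat.log 2 (input A b c v).length ∨
          Nat.log 2 m ^ 2 ≤ C * Nat.log 2 (input A b c v).length) →
        g (input A b c v) = f (input A b c v)) ∧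
    ∃ q : Polynomial ℕ, ∀ (m n : ℕ) (A : Fin m → Fin n → ℚ) (b : Fin m → ℚ) (c v : Fin n → ℚ),
      re v ∈ Set.extremePoints ℝ (polyhedron A b) →
      (input A b c v).length ≤ q.eval (program A b c).length := by
  refine ⟨fun x => bits (Y644.QS.lpBits x ((16 * x.length + 16) ^ sz (16 * x.length + 16))),
    NPC.Y644.quasi_lp, fun m n A b c v hv => ?_, fun C => ⟨_, NPC.Y644.poly_lp C,
      fun m n A b c v hv h => ?_⟩, NPC.Y644.exists_vertex_bound⟩
  · have hL : m + n < (input A b c v).length := Y644.QS.le_sz_inp
    obtain ⟨N, x, d, h1, h2, h3⟩ := Y644.QS.lpRun_spec (c := c) hv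
    refine ⟨N, x, d, ?_, h2, h3.trans ?_⟩
    · change bits (Y644.QS.lpBits (bits (Y644.QS.inp A b c v)) _) = _
      rw [Y644.QS.lpBits_inp, h1 _ (NPC.Y644.stepsB_le_main hL)]
      rfl
    · refine min_le_min (Nat.mul_le_mul_right _ (Y644.QS.wt_le _)) ?_
      refine Nat.add_le_add_left (Nat.mul_le_mul_right _ ((Y644.QS.wt_le _).trans ?_)) _
      omega
  · have hL : m + n < (input A b c v).length := Y644.QS.le_sz_inp
    obtain ⟨N, x, d, h1, h2, h3⟩ := Y644.QS.lpRun_spec (c := c) hv
    change bits (Y644.QS.lpBits (bits (Y644.QS.inp A b c v)) _) =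
      bits (Y644.QS.lpBits (bits (Y644.QS.inp A b c v)) _)
    rw [Y644.QS.lpBits_inp, Y644.QS.lpBits_inp, h1 _ (NPC.Y644.stepsB_le_main hL), h1]
    rcases h with h | h
    · exact Y644.QS.stepsB_le_of_dim hL h
    · exact Y644.QS.stepsB_le_of_con hL h

end Pool.Agent.Results.MP_4d246d_lc.QuasiPolynomial
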