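import Pool.Agent.Y639.AR.Multi
set_option autoImplicit false

/-!
# On abstract cubes all deterministic pivot rules need `2 ^ Ω(√(n / log n))` steps, even `n ^ (1 - ε)` rules at once

`flip x i` is the neighbour of the vertex `x` of the `n`-cube in direction `i`, and `improving f x` the set
of directions `i` with `f x < f (flip x i)`. A rule sees all the vertices visited so far, with their
objective values and their sets of improving directions (`seen`, the current vertex first), and chooses an
improving direction. It may use all this information in any way.

For arbitrary `m` rules and `m` start vertices there is ONE objective function with exactly one local maximum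
on every face on which each of the rules makes at least `2 ^ k` steps, if
`12 k (6 k + m) (3 ⌈log₂ k⌉ + 10) ≤ n`. For one rule this is `2 ^ (c √(n / log n))` steps, the exponent of the
known upper bound `2 ^ O(√n)` of the randomised rule Random-Facet up to the logarithm. For `m = n ^ (1 - ε)`
it is `2 ^ (n ^ (ε - o(1)))` steps: a rule which uses at most `(1 - ε) log₂ n` random bits is not polynomial,
not even for its best random string.

Proof. The adversary of `AllDeterministicRules` (nested epochs, hypersinks) with a new accounting of what the
rule has learnt. Records of level `D` are wiped while at most `2 ^ (i - D)` of them are left out, with a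
schedule `k / (i - D)` of the parameter; so the wiping phase of a level costs `O(k log k)` directions and
not `k ^ 2`. When an epoch of level `k` of the first rule is complete, a hypersink has been frozen, which
costs `O(k log k)` directions. The orientation outside it is completed, the next rule walks there until it
enters the hypersink, and plays against the adversary inside.
-/

namespace Pool.Agent.Results.MP_4d246d_lc.SeveralRules

open Finset Pool.Agent.TH70.AR

/-- **Finitely many deterministic pivot rules on one abstract objective function.** Let `k ≥ 1` and
`12 k (6 k + m) (3 ⌈log₂ k⌉ + 10) ≤ n`. A rule sees the list of triples (visited vertex, its objective value,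
its set of improving directions), the current one first, and names an improving direction. For every `m`
rules and `m` start vertices `x₀ j` of the `n`-cube there is one injective objective function `f` with exactly
one local maximum on every face (so that increasing paths of at most `n` steps lead from every vertex to the
maximum) such that for all `j` the rule `j`, started at `x₀ j`, reaches the maximum after `L ≥ 2 ^ k`
steps. -/
theorem result (n k m : ℕ) (hk : 1 ≤ k)
    (hn : 12 * k * (6 * k + m) * (3 * Nat.clog 2 k + 10) ≤ n)
    (rule : Fin m → List ((Fin n → Bool) × ℕ × Finset (Fin n)) → Fin n)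
    (hrule : ∀ (j : Fin m) (x : Fin n → Bool) (c : ℕ) (S : Finset (Fin n))
      (l : List ((Fin n → Bool) × ℕ × Finset (Fin n))), S.Nonempty → rule j ((x, c, S) :: l) ∈ S)
    (x₀ : Fin m → Fin n → Bool) :
    ∃ f : (Fin n → Bool) → ℕ,
      Function.Injective f ∧
      (∀ (U : Finset (Fin n)) (x : Fin n → Bool), ∃! y : Fin n → Bool,
        (∀ i, i ∉ U → y i = x i) ∧ ∀ i ∈ U, f (flip y i) < f y) ∧
      (∀ x : Fin n → Bool, ∃ (l : ℕ) (v : ℕ → (Fin n → Bool)), l ≤ n ∧ v 0 = x ∧
        (∀ t < l, ∃ i ∈ improving f (v t), v (t + 1) = flip (v t) i) ∧
        improving f (v l) = ∅) ∧
      ∀ j : Fin m, ∃ (L : ℕ) (w : ℕ → (Fin n → Bool)),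
        w 0 = x₀ j ∧
        (∀ t < L, (improving f (w t)).Nonempty ∧
          w (t + 1) = flip (w t) (rule j (seen f w t))) ∧
        improving f (w L) = ∅ ∧ 2 ^ k ≤ L := by
  have hlam : k ≤ 2 ^ Nat.clog 2 k := Nat.le_pow_clog (by norm_num) k
  obtain ⟨f, h1, h2, h3⟩ := Pool.Agent.Y639.AR.slow_all hk hlam
    (by
      refine le_trans (le_of_eq ?_) hn
      ring) rule hrule x₀
  exact ⟨f, h1, h2, short_path h2, h3⟩

end Pool.Agent.Results.MP_4d246d_lc.SeveralRules
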